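import Pool.Agent.Helper28.LV.StN

/-!
# Project LV, module CA4: Bol's identity
-/

set_option autoImplicit false

namespace Pool.Agent.Helper76.LV

open Pool.Agent.Helper28.WK Pool.Agent.Helper28.LV Pool.Agent.Helper14.WK

private theorem isOpen_H : IsOpen {z : ℂ | 0 < z.im} :=
  isOpen_lt continuous_const Complex.continuous_im

private theorem im_neg_inv {z : ℂ} (hz : 0 < z.im) : 0 < (-1 / z).im := by
  have hz0 : z ≠ 0 := by
    rintro rfl
    simp at hz
  have h : 0 < Complex.normSq z := Complex.normSq_pos.mpr hz0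
  rw [neg_div, one_div, Complex.neg_im, Complex.inv_im, neg_div, neg_neg]
  exact div_pos hz h

private theorem diff_iter {g : ℂ → ℂ} (hg : DifferentiableOn ℂ g {z : ℂ | 0 < z.im}) (k : ℕ)
    {z : ℂ} (hz : 0 < z.im) : DifferentiableAt ℂ (iteratedDeriv k g) z := by
  have h1 : AnalyticOnNhd ℂ g {z : ℂ | 0 < z.im} := hg.analyticOnNhd isOpen_H
  rw [iteratedDeriv_eq_iterate]
  exact ((h1 z hz).iterated_deriv k).differentiableAt

private theorem iter_mul {φ : ℂ → ℂ} (hφ : DifferentiableOn ℂ φ {z : ℂ | 0 < z.im}) (k : ℕ) :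
    ∀ z : ℂ, 0 < z.im → iteratedDeriv (k + 1) (fun w : ℂ => w * φ w) z =
      z * iteratedDeriv (k + 1) φ z + (k + 1) * iteratedDeriv k φ z := by
  induction k with
  | zero =>
    intro z hz
    have h1 : DifferentiableAt ℂ φ z := hφ.differentiableAt (isOpen_H.mem_nhds hz)
    have h2 : HasDerivAt (fun w : ℂ => w * φ w) (1 * φ z + z * deriv φ z) z :=
      (hasDerivAt_id z).mul h1.hasDerivAt
    rw [zero_add, iteratedDeriv_one, iteratedDeriv_one, iteratedDeriv_zero, h2.deriv]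
    push_cast
    ring
  | succ k ih =>
    intro z hz
    have h1 : HasDerivAt (iteratedDeriv (k + 1) φ) (iteratedDeriv (k + 1 + 1) φ z) z := by
      rw [iteratedDeriv_succ (n := k + 1)]
      exact (diff_iter hφ (k + 1) hz).hasDerivAt
    have h0 : HasDerivAt (iteratedDeriv k φ) (iteratedDeriv (k + 1) φ z) z := by
      rw [iteratedDeriv_succ (n := k)]
      exact (diff_iter hφ k hz).hasDerivAt
    have h2 : HasDerivAt (fun w : ℂ => w * iteratedDeriv (k + 1) φ w +
        ((k : ℂ) + 1) * iteratedDeriv k φ w)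
        ((1 * iteratedDeriv (k + 1) φ z + z * iteratedDeriv (k + 1 + 1) φ z) +
          ((k : ℂ) + 1) * iteratedDeriv (k + 1) φ z) z :=
      ((hasDerivAt_id z).mul h1).add (h0.const_mul _)
    have h3 : iteratedDeriv (k + 1) (fun w : ℂ => w * φ w) =ᶠ[nhds z]
        fun w : ℂ => w * iteratedDeriv (k + 1) φ w + ((k : ℂ) + 1) * iteratedDeriv k φ w := by
      filter_upwards [isOpen_H.mem_nhds hz] with w hw
      exact ih w hw
    rw [iteratedDeriv_succ (n := k + 1), h3.deriv_eq, h2.deriv]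
    push_cast
    ring

private theorem hasDerivAt_neg_inv {z : ℂ} (hz : z ≠ 0) :
    HasDerivAt (fun w : ℂ => -1 / w) ((z ^ 2)⁻¹) z := by
  have h := (hasDerivAt_inv hz).const_mul (-1 : ℂ)
  have e : (fun w : ℂ => -1 / w) = fun w : ℂ => (-1 : ℂ) * w⁻¹ := by
    funext w
    rw [div_eq_mul_inv]
  rw [e]
  have e2 : (-1 : ℂ) * -(z ^ 2)⁻¹ = (z ^ 2)⁻¹ := by ring
  rw [e2] at h
  exact h

private theorem diff_phi {g : ℂ → ℂ} (hg : DifferentiableOn ℂ g {z : ℂ | 0 < z.im}) (n : ℕ) :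
    DifferentiableOn ℂ (fun w : ℂ => w ^ n * g (-1 / w)) {z : ℂ | 0 < z.im} := by
  intro z hz
  have hz' : 0 < z.im := hz
  have hz0 : z ≠ 0 := by
    rintro rfl
    simp at hz'
  have h1 : DifferentiableAt ℂ g (-1 / z) :=
    hg.differentiableAt (isOpen_H.mem_nhds (im_neg_inv hz'))
  have h2 : HasDerivAt (fun w : ℂ => g (-1 / w)) (deriv g (-1 / z) * (z ^ 2)⁻¹) z :=
    HasDerivAt.comp z h1.hasDerivAt (hasDerivAt_neg_inv hz0)
  have h3 : DifferentiableAt ℂ (fun w : ℂ => w ^ n * g (-1 / w)) z :=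
    ((differentiableAt_id).pow n).mul h2.differentiableAt
  exact h3.differentiableWithinAt

theorem hCA4 : CA4 := by
  intro n g hg
  induction n with
  | zero =>
    intro z hz
    have hz0 : z ≠ 0 := by
      rintro rfl
      simp at hz
    have h1 : DifferentiableAt ℂ g (-1 / z) :=
      hg.differentiableAt (isOpen_H.mem_nhds (im_neg_inv hz))
    have h2 : HasDerivAt (fun w : ℂ => g (-1 / w)) (deriv g (-1 / z) * (z ^ 2)⁻¹) z :=
      HasDerivAt.comp z h1.hasDerivAt (hasDerivAt_neg_inv hz0)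
    have e : (fun w : ℂ => w ^ 0 * g (-1 / w)) = fun w : ℂ => g (-1 / w) := by
      funext w
      rw [pow_zero, one_mul]
    rw [e, zero_add, iteratedDeriv_one, iteratedDeriv_one, h2.deriv, zero_add, mul_comm]
  | succ n ih =>
    intro z hz
    have hz0 : z ≠ 0 := by
      rintro rfl
      simp at hz
    have e : (fun w : ℂ => w ^ (n + 1) * g (-1 / w)) =
        fun w : ℂ => w * (fun w : ℂ => w ^ n * g (-1 / w)) w := by
      funext w
      simp only
      ring
    rw [e, iter_mul (diff_phi hg n) (n + 1) z hz]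
    have h1 : DifferentiableAt ℂ (iteratedDeriv (n + 1) g) (-1 / z) :=
      diff_iter hg (n + 1) (im_neg_inv hz)
    have h1' : HasDerivAt (iteratedDeriv (n + 1) g) (iteratedDeriv (n + 1 + 1) g (-1 / z))
        (-1 / z) := by
      rw [iteratedDeriv_succ (n := n + 1)]
      exact h1.hasDerivAt
    have h2 : HasDerivAt (fun w : ℂ => iteratedDeriv (n + 1) g (-1 / w))
        (iteratedDeriv (n + 1 + 1) g (-1 / z) * (z ^ 2)⁻¹) z :=
      HasDerivAt.comp z h1' (hasDerivAt_neg_inv hz0)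
    have h3 : HasDerivAt (fun w : ℂ => (w ^ (n + 2))⁻¹)
        (-(((n + 2 : ℕ) : ℂ) * z ^ (n + 2 - 1)) / (z ^ (n + 2)) ^ 2) z :=
      (hasDerivAt_pow (n + 2) z).inv (pow_ne_zero _ hz0)
    have h4 : iteratedDeriv (n + 1) (fun w : ℂ => w ^ n * g (-1 / w)) =ᶠ[nhds z]
        fun w : ℂ => (w ^ (n + 2))⁻¹ * iteratedDeriv (n + 1) g (-1 / w) := by
      filter_upwards [isOpen_H.mem_nhds hz] with w hw
      exact ih w hw
    have h5 : iteratedDeriv (n + 1 + 1) (fun w : ℂ => w ^ n * g (-1 / w)) z =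
        -(((n + 2 : ℕ) : ℂ) * z ^ (n + 2 - 1)) / (z ^ (n + 2)) ^ 2 *
          iteratedDeriv (n + 1) g (-1 / z) +
        (z ^ (n + 2))⁻¹ * (iteratedDeriv (n + 1 + 1) g (-1 / z) * (z ^ 2)⁻¹) := by
      rw [iteratedDeriv_succ (n := n + 1), h4.deriv_eq]
      exact (h3.mul h2).deriv
    rw [h5, ih z hz]
    have e1 : n + 2 - 1 = n + 1 := by omega
    rw [e1]
    push_cast
    field_simp
    ring

end Pool.Agent.Helper76.LV
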